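import Pool.Agent.helper81.CW.Spec1

/-! # Project cw: module U4 (volume of the ball, from U3) -/

open MeasureTheory Set
open scoped ENNReal

namespace Pool.Agent.helper81.CW

theorem U4_mem {n : ℕ} {r : ℝ} (b : E n) (hb : b ∈ Metric.closedBall (0 : E n) r) :
    ∑ i, (max (|b i| - |(0 : E n) i|) 0) ^ 2 ≤ r ^ 2 := by
  have h1 : ‖b‖ ≤ r := by simpa using hb
  have h2 : ‖b‖ ^ 2 ≤ r ^ 2 := by
    have := norm_nonneg b
    exact pow_le_pow_left₀ this h1 2
  have h3 : ‖b‖ ^ 2 = ∑ i, (b i) ^ 2 := by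
    rw [EuclideanSpace.norm_sq_eq]
    refine Finset.sum_congr rfl fun i _ => ?_
    rw [Real.norm_eq_abs, sq_abs]
  have h4 : ∑ i, (max (|b i| - |(0 : E n) i|) 0) ^ 2 = ∑ i, (b i) ^ 2 := by
    refine Finset.sum_congr rfl fun i _ => ?_
    have : |(0 : E n) i| = 0 := by simp
    rw [this, sub_zero, max_eq_left (abs_nonneg _), sq_abs]
  rw [h4, ← h3]; exact h2

theorem U4 (h : U3_stmt) : U4_stmt := by
  intro n r hn hr
  rcases hr.eq_or_lt with h0 | hpos
  · subst h0
    haveI : Nonempty (Fin n) := ⟨⟨0, hn⟩⟩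
    rw [EuclideanSpace.volume_closedBall]
    simp only [ENNReal.ofReal_zero, Fintype.card_fin]
    rw [zero_pow (by omega), zero_mul]
    exact zero_le
  · have hL : 0 < 1 / (2 * r ^ 2) := by positivity
    have h1 := h n 0 (r ^ 2) (1 / (2 * r ^ 2)) hn hL
    have h2 : Real.exp (1 / (2 * r ^ 2) * r ^ 2) * (2 * ‖(0 : E n)‖ + Real.sqrt (Real.pi / (1 / (2 * r ^ 2)))) =
        r * Real.sqrt (2 * Real.pi * Real.exp 1) := by
      have e1 : 1 / (2 * r ^ 2) * r ^ 2 = 1 / 2 := by field_simp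
      have e2 : Real.pi / (1 / (2 * r ^ 2)) = r ^ 2 * (2 * Real.pi) := by field_simp
      rw [e1, e2, norm_zero, mul_zero, zero_add, Real.sqrt_mul (by positivity), Real.sqrt_sq hr,
        Real.sqrt_mul (by positivity) (Real.exp 1)]
      have e3 : Real.sqrt (Real.exp 1) = Real.exp (1 / 2) := by
        rw [Real.sqrt_eq_iff_eq_sq (Real.exp_pos _).le (Real.exp_pos _).le, ← Real.exp_nat_mul]
        norm_num
      rw [e3]; ring
    rw [h2] at h1
    exact le_trans (measure_mono fun b hb => U4_mem b hb) h1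

end Pool.Agent.helper81.CW
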