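import Pool.Agent.helper81.CW.Spec2

/-! # Project cw: module J7 -/

open MeasureTheory Set
open scoped ENNReal

namespace Pool.Agent.helper81.CW

theorem J7 : J7_stmt := by
  intro R e hR hR2 he
  have h3 : Real.sqrt 3 / 2 = Real.sqrt (3 / 4) := by
    rw [Real.sqrt_div (by norm_num)]
    congr 1
    rw [show (4:ℝ) = 2 ^ 2 by norm_num, Real.sqrt_sq (by norm_num)]
  have h1 : Real.sqrt (3 / 4) ≤ Real.sqrt ((1 / 2 + e) ^ 2 + 1 - R ^ 2) := by
    apply Real.sqrt_le_sqrt; nlinarith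
  have h2 : 1 / 2 + e ≤ Real.sqrt ((1 / 2 + e) ^ 2 + 1 - R ^ 2) := by
    apply Real.le_sqrt_of_sq_le; linarith
  have h4 : Real.sqrt ((1 / 2 + e) ^ 2 + 1 - R ^ 2) ≤ 3 / 2 + e := by
    rw [Real.sqrt_le_left (by linarith)]; nlinarith [sq_nonneg R]
  refine ⟨?_, by linarith, by linarith⟩
  rw [← h3] at h1
  linarith

end Pool.Agent.helper81.CW
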